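import Pool.Agent.helper93.VD.SpecB4c
import Pool.Agent.helper62.VDE.IUD
import Pool.Agent.helper29.VDG.GUE

/-!
# Project VD (MP_07c750_an), block B3: the volume lemma and shadowing for the geodesic flow, in the form used in block E (`VDE.GSD_stmt` of helper62)
-/

set_option autoImplicit false

open Pool.Agent.VD Pool.Agent.VDE MeasureTheory Filter Set Topology
open scoped ENNReal

namespace Pool.Agent.VDG

/-- `GeU` is monotone in the constant -/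
theorem GSD_mono {d : ℕ} {Γ : Type} [Group Γ] [MulAction Γ (V d)] {K F0 : Set (V d)}
    {G : V d → V d →L[ℝ] V d} {Φ : ℝ → P d → P d} {r1 C C' : ℝ} {dd : P d → P d → ℝ} (hC : C ≤ C')
    (h : GeU Γ K F0 G Φ r1 C dd) : GeU Γ K F0 G Φ r1 C' dd where
  fld := GUE_mono hC h.fld
  hr := h.hr
  hC := h.hC.trans hC
  tt := fun p t hp ht => (h.tt p t hp ht).trans (mul_le_mul_of_nonneg_right hC (abs_nonneg _))
  lp := fun p q t hp hq ht => (h.lp p q t hp hq ht).trans (mul_le_mul_of_nonneg_right hC (h.fld.dis.nn p q))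
  nlo := fun p q h1 h2 h3 h4 h5 => (h.nlo p q h1 h2 h3 h4 h5).trans (mul_le_mul_of_nonneg_right hC (h.fld.dis.nn p q))
  nup := fun p q h1 h2 h3 h4 h5 => (h.nup p q h1 h2 h3 h4 h5).trans (mul_le_mul_of_nonneg_right hC (norm_nonneg _))
  nno := fun p hp => (h.nno p hp).trans (mul_le_mul_of_nonneg_right hC (Real.sqrt_nonneg _))
  nnl := fun p q h1 h2 h3 h4 h5 h6 => (h.nnl p q h1 h2 h3 h4 h5 h6).trans (mul_le_mul_of_nonneg_right hC (norm_nonneg _))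

/-- **Row GSD** -/
theorem GSD_proof (hGUE : GUE_stmt) (hGFI : GFI_stmt) (hFLD : FLD_stmt) (hSCL : Pool.Agent.VDL.SCL_stmt) : GSD_stmt := by
  intro d Γ _ _ K F0 k B χ G Φ hd hK hF hχ hG hΦ
  obtain ⟨m, rfl⟩ : ∃ m, d = m + 1 := ⟨d - 1, by omega⟩
  obtain ⟨r1, C0, hr1, hC0, hU⟩ := hGUE (m + 1) Γ K k B χ hK hχ (hFLD (m + 1) Γ K k B χ hK hχ)
  obtain ⟨c, C', e0, e1, hc, hCC, hC1, he0, he1, hS⟩ := hSCL m Γ K k B χ C0 hK hχ
  obtain ⟨κ, hκ⟩ := hS G Φ hG hΦ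
  exact hGFI m r1 c C' e0 e1 Γ K F0 G Φ (dP Γ χ) κ (GSD_mono hCC (hU F0 G Φ hF hG hΦ)) hκ

end Pool.Agent.VDG
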