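import Pool.Agent.helper82.VD.SpecJ

/-!
# MP_07c750, project VD, row GSX (section Bowen balls: changing the length)
-/

set_option autoImplicit false

open Pool.Agent.VD Pool.Agent.VDE MeasureTheory Filter Set Topology
open scoped ENNReal

namespace Pool.Agent.VDG

theorem GSX_ball {m : ℕ} {H : (EE m → EE m) → Prop} {C1 ρ0 : ℝ} (hH : HB H C1 ρ0) (F : ℕ → EE m → EE m) {ρ : ℝ} (hρ : ρ ≤ ρ0)
    (hF : ∀ i, H (F i) ∧ F i 0 = 0) (k : ℕ) (hk : k ≤ 3) : Metric.ball 0 (ρ / C1 ^ 3) ⊆ SB F k ρ := by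
  intro a ha
  rw [mem_ball_zero_iff] at ha
  have hC := hH.hC
  have hC0 : 0 < C1 := by linarith
  have h1 : C1 ^ 3 * ‖a‖ ≤ ρ := by
    rw [lt_div_iff₀ (by positivity)] at ha
    linarith
  have hn := norm_nonneg a
  have st : ∀ (i : ℕ) (b : EE m), ‖b‖ ≤ ρ0 → ‖F i b‖ ≤ C1 * ‖b‖ := by
    intro i b hb
    have h := hH.lip (F i) (hF i).1 b 0 hb (by rw [norm_zero]; exact hH.hρ.le)
    rw [(hF i).2, sub_zero, sub_zero] at h
    exact h
  have key : ∀ i : ℕ, i ≤ 3 → ‖itr F i a‖ ≤ C1 ^ i * ‖a‖ := by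
    intro i
    induction i with
    | zero =>
      intro _
      rw [pow_zero, one_mul]
      exact le_refl _
    | succ i ih =>
      intro hi
      have h2 := ih (by omega)
      have h3 : C1 ^ i ≤ C1 ^ 3 := pow_le_pow_right₀ hC (by omega)
      have h4 : C1 ^ i * ‖a‖ ≤ C1 ^ 3 * ‖a‖ := mul_le_mul_of_nonneg_right h3 hn
      have h5 : ‖itr F i a‖ ≤ ρ0 := by linarith
      have h6 : ‖itr F (i + 1) a‖ ≤ C1 * ‖itr F i a‖ := st i _ h5
      have h7 : C1 * ‖itr F i a‖ ≤ C1 * (C1 ^ i * ‖a‖) := mul_le_mul_of_nonneg_left h2 hC0.le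
      calc ‖itr F (i + 1) a‖ ≤ C1 * (C1 ^ i * ‖a‖) := h6.trans h7
        _ = C1 ^ (i + 1) * ‖a‖ := by ring
  intro i hi
  have h3 : C1 ^ i ≤ C1 ^ 3 := pow_le_pow_right₀ hC (by omega)
  have h4 : C1 ^ i * ‖a‖ ≤ C1 ^ 3 * ‖a‖ := mul_le_mul_of_nonneg_right h3 hn
  have h5 := key i (by omega)
  linarith

theorem GSX_proof (hGSB : GSB_stmt) : GSX_stmt := by
  intro m H C1 ρ0 hH ρ' ρ hρ' hρ0' hρ hρ0
  obtain ⟨hz, hsub, hcl, -⟩ := hGSB H C1 ρ0 hH
  have hC0 : 0 < C1 := lt_of_lt_of_le one_pos hH.hC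
  obtain ⟨Ca, hCa, ha⟩ := hH.gva (min ρ ρ') ρ (lt_min hρ hρ') (min_le_left _ _) hρ0
  have hvp : 0 < volume (Metric.ball (0 : EE m) (ρ / C1 ^ 3)) := Metric.measure_ball_pos volume 0 (by positivity)
  have hvf : volume (Metric.ball (0 : EE m) (ρ / C1 ^ 3)) < ⊤ := measure_ball_lt_top
  obtain ⟨w, hw⟩ : ∃ w : ℝ, w = (volume (Metric.ball (0 : EE m) (ρ / C1 ^ 3))).toReal := ⟨_, rfl⟩
  have hw0 : 0 < w := by
    rw [hw]
    exact ENNReal.toReal_pos hvp.ne' hvf.ne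
  have hwv : ENNReal.ofReal w = volume (Metric.ball (0 : EE m) (ρ / C1 ^ 3)) := by
    rw [hw, ENNReal.ofReal_toReal hvf.ne]
  refine ⟨Ca / w, by positivity, ?_⟩
  intro n j F hj hF
  refine ⟨hcl F n ρ hρ0 fun i _ => (hF i).1, ?_, lt_of_le_of_lt (measure_mono (hsub F n ρ)) measure_closedBall_lt_top⟩
  have h1 : volume (SB F n ρ) * ENNReal.ofReal w ≤ ENNReal.ofReal Ca * volume (SB F (n + j) ρ') := by
    rw [hwv]
    calc volume (SB F n ρ) * volume (Metric.ball (0 : EE m) (ρ / C1 ^ 3))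
        ≤ volume (SB F n ρ) * volume (SB (fun i => F (n + i)) j ρ) := by
          gcongr
          exact GSX_ball hH (fun i => F (n + i)) hρ0 (fun i => hF _) j hj
      _ ≤ ENNReal.ofReal Ca * volume (SB F (n + j) (min ρ ρ')) := ha n j F fun i _ => hF i
      _ ≤ ENNReal.ofReal Ca * volume (SB F (n + j) ρ') := by
          gcongr
          intro a h i hi
          exact (h i hi).trans (min_le_right _ _)
  calc volume (SB F n ρ) = volume (SB F n ρ) * (ENNReal.ofReal w * ENNReal.ofReal w⁻¹) := by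
        rw [← ENNReal.ofReal_mul hw0.le, mul_inv_cancel₀ hw0.ne', ENNReal.ofReal_one, mul_one]
    _ = (volume (SB F n ρ) * ENNReal.ofReal w) * ENNReal.ofReal w⁻¹ := by ring
    _ ≤ (ENNReal.ofReal Ca * volume (SB F (n + j) ρ')) * ENNReal.ofReal w⁻¹ := by gcongr
    _ = ENNReal.ofReal (Ca / w) * volume (SB F (n + j) ρ') := by
        rw [div_eq_mul_inv, ENNReal.ofReal_mul hCa.le]
        ring

end Pool.Agent.VDG
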