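import Pool.Agent.helper82.VD.SpecJ

/-!
# Project VD (MP_07c750_an), block B3, row GZD (no drift, uniform)
-/

set_option autoImplicit false

open Pool.Agent.VD Pool.Agent.VDE MeasureTheory Filter Set Topology
open scoped ENNReal

namespace Pool.Agent.VDG

noncomputable section

theorem GZD_qq {m : ℕ} (b : EE m) : |qq b| ≤ ‖b‖ ^ 2 := by
  unfold qq
  calc |inner ℝ b.1 b.2| ≤ ‖b.1‖ * ‖b.2‖ := abs_real_inner_le_norm _ _
    _ ≤ ‖b‖ * ‖b‖ := mul_le_mul (norm_fst_le b) (norm_snd_le b) (norm_nonneg _) (norm_nonneg _)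
    _ = ‖b‖ ^ 2 := by ring

theorem GZD_eps (C C1 e ρ0 : ℝ) (hC : 1 ≤ C) (hC1 : 1 ≤ C1) (he : 0 < e) (hρ : 0 < ρ0) :
    ∃ e2 : ℝ, 0 < e2 ∧ 2 * e2 ≤ e ∧ 2 * e2 ≤ ρ0 ∧ e2 ≤ 1 ∧ C * (C * e2) ≤ e ∧ C * (e2 ^ 2 + C * (C * e2)) ≤ e ∧
      C * (C * (C * e2)) + C1 * e2 ≤ e := by
  set b := min 1 (min e ρ0) with hb
  have hb0 : 0 < b := lt_min one_pos (lt_min he hρ)
  have hb1 : b ≤ 1 := min_le_left _ _
  have hbe : b ≤ e := (min_le_right _ _).trans (min_le_left _ _)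
  have hbρ : b ≤ ρ0 := (min_le_right _ _).trans (min_le_right _ _)
  have hC0 : 0 < C := by linarith
  have hC10 : 0 < C1 := by linarith
  have hC3 : 1 ≤ C ^ 3 := one_le_pow₀ hC
  have hCC3 : C ≤ C ^ 3 := le_self_pow₀ hC (by norm_num)
  have hC2 : C ^ 2 ≤ C ^ 3 := pow_le_pow_right₀ hC (by norm_num)
  obtain ⟨x, hx⟩ : ∃ x : ℝ, x = b / (4 * C ^ 3 * C1) := ⟨_, rfl⟩
  have hx0 : 0 < x := by rw [hx]; positivity
  have hxm : 4 * (C ^ 3 * C1 * x) = b := by rw [hx]; field_simp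
  have h1 : C ^ 3 * x ≤ C ^ 3 * C1 * x := by
    have h2 : C ^ 3 * x ≤ C ^ 3 * x * C1 := le_mul_of_one_le_right (by positivity) hC1
    calc C ^ 3 * x ≤ C ^ 3 * x * C1 := h2
      _ = C ^ 3 * C1 * x := by ring
  have h2 : C1 * x ≤ C ^ 3 * C1 * x := by
    have h3 : C1 * x ≤ C ^ 3 * (C1 * x) := le_mul_of_one_le_left (by positivity) hC3
    calc C1 * x ≤ C ^ 3 * (C1 * x) := h3
      _ = C ^ 3 * C1 * x := by ring
  have h3 : C * x ≤ C ^ 3 * x := mul_le_mul_of_nonneg_right hCC3 hx0.le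
  have h4 : x ≤ C ^ 3 * x := le_mul_of_one_le_left hx0.le hC3
  have h5 : C ^ 2 * x ≤ C ^ 3 * x := mul_le_mul_of_nonneg_right hC2 hx0.le
  have hx1 : x ≤ 1 := by linarith
  refine ⟨x, hx0, by linarith, by linarith, hx1, ?_, ?_, ?_⟩
  · have : C * (C * x) = C ^ 2 * x := by ring
    rw [this]; linarith
  · have h6 : C * (x ^ 2 + C * (C * x)) = C * x * x + C ^ 3 * x := by ring
    have h7 : C * x * x ≤ C * x := mul_le_of_le_one_right (by positivity) hx1
    rw [h6]; linarith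
  · have h6 : C * (C * (C * x)) = C ^ 3 * x := by ring
    rw [h6]; linarith

theorem GZD_proof : GZD_stmt := by
  intro C e C1 ρ0 hC he hC1 hρ0
  obtain ⟨e2, h0, h2e, h2ρ, h21, hA, hB, hD⟩ := GZD_eps C C1 e ρ0 hC hC1 he hρ0
  have hCp : 0 < C := by linarith
  have hC1p : 0 < C1 := by linarith
  refine ⟨e2, C + 2 * C * C1, h0, h2e, h2ρ, ?_, ?_⟩
  · have : 0 ≤ 2 * C * C1 := by positivity
    linarith
  intro S _ m μ d f H H' κ F τ hS2 hH' hR z a0 ha0
  have hS := hS2.sct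
  -- the points
  obtain ⟨y0, hy0⟩ : ∃ y0 : S, y0 = κ z a0 := ⟨_, rfl⟩
  obtain ⟨y1, hy1⟩ : ∃ y1 : S, y1 = f 1 y0 := ⟨_, rfl⟩
  rw [← hy0, ← hy1]
  have ha0e : ‖a0‖ ≤ e := by linarith
  have hd1 : d (f 1 z) y1 ≤ C * (C * ‖a0‖) := by
    rw [hy1, hy0]
    refine (hS.lp z (κ z a0) 1 (by norm_num)).trans ?_
    exact mul_le_mul_of_nonneg_left (hS.kl z a0 ha0e) hCp.le
  have hd1' : d (f 1 z) y1 ≤ C * (C * e2) :=
    hd1.trans (mul_le_mul_of_nonneg_left (mul_le_mul_of_nonneg_left ha0 hCp.le) hCp.le)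
  have hde : d (f 1 z) y1 ≤ e := hd1'.trans hA
  have hHF : H (F z y1) := hS.poH z y1 hde
  obtain ⟨hk1, ht1⟩ := hS.poF z y1 hde a0 ha0e
  have hτe : |τ z y1 a0 - 1| ≤ e := by
    refine ht1.trans (le_trans ?_ hB)
    refine mul_le_mul_of_nonneg_left (add_le_add ?_ hd1') hCp.le
    exact pow_le_pow_left₀ (norm_nonneg _) ha0 2
  have hFa : ‖F z y1 a0‖ ≤ e := by
    have hl := hH'.lip (F z y1) (hR.self _ hHF) a0 0 (by linarith) (by rw [norm_zero]; exact hρ0.le)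
    rw [sub_zero] at hl
    have h1 : ‖F z y1 a0‖ ≤ ‖F z y1 a0 - F z y1 0‖ + ‖F z y1 0‖ := by
      calc ‖F z y1 a0‖ = ‖(F z y1 a0 - F z y1 0) + F z y1 0‖ := by rw [sub_add_cancel]
        _ ≤ _ := norm_add_le _ _
    have h2 : ‖F z y1 0‖ ≤ C * (C * (C * e2)) := (hS.po0 z y1 hde).trans (mul_le_mul_of_nonneg_left hd1' hCp.le)
    have h3 : C1 * ‖a0‖ ≤ C1 * e2 := mul_le_mul_of_nonneg_left ha0 hC1p.le
    linarith
  have hinj : F z y1 a0 = 0 ∧ τ z y1 a0 - 1 = 0 := by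
    refine hS.inj y1 0 (F z y1 a0) (τ z y1 a0 - 1) (by rw [norm_zero]; exact he.le) hFa hτe ?_
    rw [hk1, hS.k0 y1, hy1, ← hS.fa, sub_add_cancel, ← hy0]
  have hF0 : F z y1 a0 = 0 := hinj.1
  have hτ0 : τ z y1 a0 = 1 := by linarith [hinj.2]
  have hd0 : ∀ i : ℕ, d (f 1 (f i y0)) (f (i + 1) y0) = 0 := by
    intro i
    rw [← hS.fa, add_comm (1 : ℝ) i]
    exact hS.dz _
  have hOr : ∀ i : ℕ, H (orb f F y0 i) ∧ orb f F y0 i 0 = 0 := by
    intro i
    have h1 : d (f 1 (f i y0)) (f (i + 1) y0) ≤ e := by rw [hd0]; exact he.le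
    refine ⟨hS.poH _ _ h1, ?_⟩
    have h2 := hS.po0 _ _ h1
    rw [hd0, mul_zero] at h2
    exact norm_le_zero_iff.1 h2
  have hZ0 : orz f κ F z a0 0 = fun u => F z y1 (a0 + u) := by
    funext u
    show F z (f 1 (κ z a0)) (a0 + u) = _
    rw [← hy0, ← hy1]
  have hZ1 : ∀ i : ℕ, orz f κ F z a0 (i + 1) = orb f F y0 (i + 1) := by
    intro i
    show orb f F (κ z a0) (i + 1) = _
    rw [← hy0]
  have hOz : ∀ i : ℕ, H' (orz f κ F z a0 i) ∧ orz f κ F z a0 i 0 = 0 := by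
    intro i
    cases i with
    | zero =>
      rw [hZ0]
      refine ⟨?_, ?_⟩
      · have h1 := hR.rc (F z y1) a0 hHF (by linarith)
        rw [hF0] at h1
        simpa only [sub_zero] using h1
      · show F z y1 (a0 + 0) = 0
        rw [add_zero]; exact hF0
    | succ i =>
      rw [hZ1]
      exact ⟨hR.self _ (hOr _).1, (hOr _).2⟩
  refine ⟨hde, hτ0, hOz, ?_⟩
  intro n ρ u hρe hu
  have hρ : 0 ≤ ρ := (norm_nonneg _).trans (hu 0 (Nat.zero_le n))
  have hu0 : ‖u‖ ≤ ρ := hu 0 (Nat.zero_le n)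
  have hρ1 : ρ ≤ 1 := hρe.trans h21
  have hρe' : ρ ≤ e := by linarith
  have hρρ : ρ ≤ ρ0 := by linarith
  have hau : ‖a0 + u‖ ≤ e := (norm_add_le _ _).trans (by linarith)
  obtain ⟨hk2, -⟩ := hS.poF z y1 hde (a0 + u) hau
  -- the times
  obtain ⟨tt, htt⟩ : ∃ tt : ℕ → ℝ, tt = fun i => Nat.casesOn (motive := fun _ => ℝ) i (τ z y1 (a0 + u)) (fun l => τ (f ((l + 1 : ℕ) : ℝ) y0) (f (((l + 1 : ℕ) : ℝ) + 1) y0) (itr (orz f κ F z a0) (l + 1) u)) := ⟨_, rfl⟩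
  have htt0 : tt 0 = τ z y1 (a0 + u) := congrFun htt 0
  have htt1 : ∀ l : ℕ, tt (l + 1) = τ (f ((l + 1 : ℕ) : ℝ) y0) (f (((l + 1 : ℕ) : ℝ) + 1) y0) (itr (orz f κ F z a0) (l + 1) u) := by
    intro l
    exact congrFun htt (l + 1)
  have hstep : ∀ i : ℕ, i + 1 < n → κ (f (((i + 1 : ℕ) : ℝ) + 1) y0) (itr (orz f κ F z a0) (i + 1 + 1) u) =
      f (tt (i + 1)) (κ (f ((i + 1 : ℕ) : ℝ) y0) (itr (orz f κ F z a0) (i + 1) u)) ∧ |tt (i + 1) - 1| ≤ C * ‖itr (orz f κ F z a0) (i + 1) u‖ ^ 2 := by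
    intro i hi
    have h1 : d (f 1 (f ((i + 1 : ℕ) : ℝ) y0)) (f (((i + 1 : ℕ) : ℝ) + 1) y0) ≤ e := by rw [hd0]; exact he.le
    have h2 := hS.poF _ _ h1 (itr (orz f κ F z a0) (i + 1) u) ((hu (i + 1) hi.le).trans hρe')
    rw [hd0, add_zero] at h2
    rw [htt1]
    refine ⟨?_, h2.2⟩
    have h3 : itr (orz f κ F z a0) (i + 1 + 1) u = orb f F y0 (i + 1) (itr (orz f κ F z a0) (i + 1) u) := by
      show orz f κ F z a0 (i + 1) (itr (orz f κ F z a0) (i + 1) u) = _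
      rw [hZ1]
    rw [h3]
    exact h2.1
  have hq : ∀ i : ℕ, i + 1 < n → C1⁻¹ * ‖itr (orz f κ F z a0) (i + 1) u‖ ^ 2 ≤
      qq (itr (orz f κ F z a0) (i + 1 + 1) u) - qq (itr (orz f κ F z a0) (i + 1) u) := by
    intro i hi
    have h1 := hH'.qs _ (hOz (i + 1)).1 (hOz (i + 1)).2 (itr (orz f κ F z a0) (i + 1) u) ((hu (i + 1) hi.le).trans hρρ)
    have h3 : itr (orz f κ F z a0) (i + 1 + 1) u = orz f κ F z a0 (i + 1) (itr (orz f κ F z a0) (i + 1) u) := rfl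
    rw [h3]
    linarith
  refine ⟨fun i => ∑ l ∈ Finset.range i, tt l, by simp, ?_⟩
  intro i hi
  constructor
  · show |∑ l ∈ Finset.range i, tt l - (i : ℝ)| ≤ _
    cases i with
    | zero =>
      simp only [Finset.range_zero, Finset.sum_empty, Nat.cast_zero, sub_zero, abs_zero]
      positivity
    | succ i =>
      have e1 : ∑ l ∈ Finset.range (i + 1), tt l - ((i + 1 : ℕ) : ℝ) = ∑ l ∈ Finset.range i, (tt (l + 1) - 1) + (tt 0 - 1) := by
        rw [Finset.sum_range_succ', Finset.sum_sub_distrib]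
        simp only [Finset.sum_const, Finset.card_range, nsmul_eq_mul, mul_one]
        push_cast
        ring
      rw [e1]
      have s0 : |tt 0 - 1| ≤ C * ρ := by
        rw [htt0, ← hτ0]
        refine (hS2.tl z y1 hde (a0 + u) a0 hau ha0e).trans ?_
        rw [add_sub_cancel_left]
        exact mul_le_mul_of_nonneg_left hu0 hCp.le
      have s1 : |∑ l ∈ Finset.range i, (tt (l + 1) - 1)| ≤ ∑ l ∈ Finset.range i, C * C1 * (qq (itr (orz f κ F z a0) (l + 1 + 1) u) - qq (itr (orz f κ F z a0) (l + 1) u)) := by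
        refine (Finset.abs_sum_le_sum_abs _ _).trans (Finset.sum_le_sum fun l hl => ?_)
        have hl' : l + 1 < n := by
          have := Finset.mem_range.1 hl
          omega
        refine (hstep l hl').2.trans ?_
        rw [mul_assoc]
        refine mul_le_mul_of_nonneg_left ?_ hCp.le
        have := hq l hl'
        rw [inv_mul_le_iff₀ hC1p] at this
        exact this
      have s2 : ∑ l ∈ Finset.range i, C * C1 * (qq (itr (orz f κ F z a0) (l + 1 + 1) u) - qq (itr (orz f κ F z a0) (l + 1) u)) ≤ 2 * C * C1 * ρ := by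
        rw [← Finset.mul_sum, Finset.sum_range_sub (fun l => qq (itr (orz f κ F z a0) (l + 1) u))]
        have b1 : |qq (itr (orz f κ F z a0) (i + 1) u)| ≤ ρ ^ 2 :=
          (GZD_qq _).trans (pow_le_pow_left₀ (norm_nonneg _) (hu _ hi) 2)
        have b2 : |qq (itr (orz f κ F z a0) (0 + 1) u)| ≤ ρ ^ 2 :=
          (GZD_qq _).trans (pow_le_pow_left₀ (norm_nonneg _) (hu _ (by omega)) 2)
        have b3 := le_of_abs_le b1
        have b4 := neg_le_of_abs_le b2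
        have b5 : ρ ^ 2 ≤ ρ := by nlinarith
        calc C * C1 * (qq (itr (orz f κ F z a0) (i + 1) u) - qq (itr (orz f κ F z a0) (0 + 1) u)) ≤
            C * C1 * (2 * ρ) := mul_le_mul_of_nonneg_left (by linarith) (by positivity)
          _ = 2 * C * C1 * ρ := by ring
      calc |∑ l ∈ Finset.range i, (tt (l + 1) - 1) + (tt 0 - 1)| ≤ |∑ l ∈ Finset.range i, (tt (l + 1) - 1)| + |tt 0 - 1| := abs_add_le _ _
        _ ≤ 2 * C * C1 * ρ + C * ρ := add_le_add (s1.trans s2) s0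
        _ = (C + 2 * C * C1) * ρ := by ring
  · intro hi1
    show f (∑ l ∈ Finset.range i, tt l) (κ z (a0 + u)) = κ (f i y0) (itr (orz f κ F z a0) i u)
    induction i with
    | zero => omega
    | succ i ih =>
      cases i with
      | zero =>
        have e1 : ∑ l ∈ Finset.range (0 + 1), tt l = τ z y1 (a0 + u) := by
          rw [zero_add, Finset.sum_range_one, htt0]
        have e2 : f ((0 + 1 : ℕ) : ℝ) y0 = y1 := by
          rw [zero_add, Nat.cast_one, hy1]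
        have e3 : itr (orz f κ F z a0) (0 + 1) u = F z y1 (a0 + u) := by
          show orz f κ F z a0 0 u = _
          rw [hZ0]
        rw [e1, e2, e3]
        exact hk2.symm
      | succ i =>
        have ih' := ih (by omega) (by omega)
        rw [Finset.sum_range_succ, add_comm, hS.fa, ih']
        have h5 := (hstep i (by omega)).1
        have e2 : ((i + 1 + 1 : ℕ) : ℝ) = ((i + 1 : ℕ) : ℝ) + 1 := by push_cast; ring
        rw [e2]
        exact h5.symm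

end

end Pool.Agent.VDG
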