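import Pool.Agent.helper82.VD.SpecJ

/-!
# Project VD (MP_07c750_an), block B3, row GZI (flow boxes are in Bowen balls, uniform)
-/

set_option autoImplicit false

open Pool.Agent.VD Pool.Agent.VDE MeasureTheory Filter Set Topology
open scoped ENNReal

namespace Pool.Agent.VDG

noncomputable section

theorem GZI_proof (hGZD : GZD_stmt) : GZI_stmt := by
  intro C e C1 ρ0 hC he hC1 hρ0
  obtain ⟨e2, C2, h0, h2e, h2ρ, hC2, hD⟩ := hGZD C e C1 ρ0 hC he hC1 hρ0
  have hCp : 0 < C := by linarith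
  have hC2p : 0 < C2 + 1 := by linarith
  refine ⟨e2, min e2 (1 / (C2 + 1)), C * (C2 + 1) + C * C, h0, h2e, h2ρ, lt_min h0 (by positivity), min_le_left _ _, ?_, ?_⟩
  · nlinarith
  intro S _ m μ d f H H' κ F τ hS2 hH' hR z a0 ha0 n ρ hρ hρ1 y hy
  have hS := hS2.sct
  have h1 : ρ ≤ e2 := hρ1.trans (min_le_left _ _)
  have h2 : ρ ≤ 1 / (C2 + 1) := hρ1.trans (min_le_right _ _)
  have h3 : (C2 + 1) * ρ ≤ 1 := by
    rw [le_div_iff₀ hC2p] at h2
    linarith
  obtain ⟨-, -, -, hdr⟩ := hD μ d f H H' κ F τ hS2 hH' hR z a0 ha0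
  obtain ⟨a, ha, s, hs, rfl⟩ := hy
  have hau : a0 + (a - a0) = a := by abel
  have ha' : a - a0 ∈ SB (orz f κ F z a0) n ρ := ha
  obtain ⟨T, hT0, hT⟩ := hdr n ρ (a - a0) h1 ha'
  rw [hau] at hT
  have hρe : ρ ≤ e := by linarith
  have hae : ‖a‖ ≤ e := by
    have h5 : ‖a - a0‖ ≤ ρ := ha' 0 (Nat.zero_le _)
    calc ‖a‖ = ‖a0 + (a - a0)‖ := by rw [hau]
      _ ≤ ‖a0‖ + ‖a - a0‖ := norm_add_le _ _
      _ ≤ e := by linarith
  -- the points `f (T i) (κ z a)` are near `f i y0`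
  have hW : ∀ i ≤ n, d (f i (κ z a0)) (f (T i) (κ z a)) ≤ C * ρ := by
    intro i hi
    cases i with
    | zero =>
      rw [hT0, Nat.cast_zero, hS.f0, hS.f0]
      refine (hS2.kl2 z a0 a (by linarith) hae).trans ?_
      rw [norm_sub_rev]
      exact mul_le_mul_of_nonneg_left (ha' 0 (Nat.zero_le _)) hCp.le
    | succ i =>
      rw [(hT (i + 1) hi).2 (by omega)]
      refine (hS.kl _ _ ((ha' (i + 1) hi).trans hρe)).trans ?_
      exact mul_le_mul_of_nonneg_left (ha' (i + 1) hi) hCp.le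
  intro t ht
  have ht0 : 0 ≤ t := ht.1
  have hi : ⌊t⌋₊ ≤ n := Nat.floor_le_of_le ht.2
  have hi1 : ((⌊t⌋₊ : ℕ) : ℝ) ≤ t := Nat.floor_le ht0
  have hi2 : t < (⌊t⌋₊ : ℕ) + 1 := Nat.lt_floor_add_one t
  generalize ⌊t⌋₊ = i at hi hi1 hi2
  obtain ⟨hTi2, -⟩ := hT i hi
  have hWi := hW i hi
  generalize hwi : f (T i) (κ z a) = w at hWi
  generalize hyi : f (i : ℝ) (κ z a0) = x at hWi
  have hu : |(i : ℝ) - T i + s| ≤ (C2 + 1) * ρ := by
    have h6 : |(i : ℝ) - T i| ≤ C2 * ρ := by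
      rw [abs_sub_comm]
      exact hTi2
    calc |(i : ℝ) - T i + s| ≤ |(i : ℝ) - T i| + |s| := abs_add_le _ _
      _ ≤ C2 * ρ + ρ := by linarith
      _ = (C2 + 1) * ρ := by ring
  set u : ℝ := (i : ℝ) - T i + s with hu_def
  set r : ℝ := t - i with hr_def
  have hu1 : |u| ≤ 1 := hu.trans h3
  have hru : |r + u| ≤ 2 := by
    have h6 : |r| ≤ 1 := by
      rw [abs_le]
      constructor <;> linarith
    exact (abs_add_le _ _).trans (by linarith)
  have e1 : f t (f s (κ z a)) = f (r + u) w := by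
    have h9 : t + s = r + u + T i := by
      rw [hr_def, hu_def]
      ring
    calc f t (f s (κ z a)) = f (t + s) (κ z a) := (hS.fa t s _).symm
      _ = f (r + u + T i) (κ z a) := by rw [h9]
      _ = f (r + u) (f (T i) (κ z a)) := hS.fa _ _ _
      _ = f (r + u) w := by rw [hwi]
  have e2' : f t (κ z a0) = f r x := by
    have h9 : t = r + i := by
      rw [hr_def]
      ring
    calc f t (κ z a0) = f (r + i) (κ z a0) := by rw [← h9]
      _ = f r (f i (κ z a0)) := hS.fa _ _ _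
      _ = f r x := by rw [hyi]
  have e3 : f (r + u) x = f u (f r x) := by
    rw [← hS.fa u r, add_comm r u]
  have b1 : d (f r x) (f u (f r x)) ≤ C * |u| := hS.tt _ u (by linarith)
  have b2 : d (f (r + u) x) (f (r + u) w) ≤ C * d x w := hS.lp _ _ _ hru
  rw [e1, e2']
  calc d (f r x) (f (r + u) w) ≤ d (f r x) (f (r + u) x) + d (f (r + u) x) (f (r + u) w) := hS.dt _ _ _
    _ ≤ C * |u| + C * (C * ρ) := by
        rw [e3] at b2 ⊢
        exact add_le_add b1 (b2.trans (mul_le_mul_of_nonneg_left hWi hCp.le))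
    _ ≤ C * ((C2 + 1) * ρ) + C * (C * ρ) := by
        refine add_le_add (mul_le_mul_of_nonneg_left hu hCp.le) le_rfl
    _ = (C * (C2 + 1) + C * C) * ρ := by ring

end

end Pool.Agent.VDG
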