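import Pool.Agent.helper82.VD.SpecJ

/-!
# Project VD (MP_07c750_an), block B3, row GZO (Bowen balls are in flow boxes, uniform)
-/

set_option autoImplicit false

open Pool.Agent.VD Pool.Agent.VDE MeasureTheory Filter Set Topology
open scoped ENNReal

namespace Pool.Agent.VDG

noncomputable section

theorem GZO_eps (C C1 c : ℝ) (hC : 1 ≤ C) (hC1 : 1 ≤ C1) (hc : 0 < c) :
    ∃ x : ℝ, 0 < x ∧ x ≤ c / 4 ∧ C * x ≤ c / 4 ∧ C1 * (C * x) ≤ c / 4 ∧ C * (C * x) ≤ c / 4 ∧ (x ≤ 1 → C * (C * x) ^ 2 ≤ c / 4) := by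
  have hC0 : 0 < C := by linarith
  have hC10 : 0 < C1 := by linarith
  have hC3 : 1 ≤ C ^ 3 := one_le_pow₀ hC
  have hCC3 : C ≤ C ^ 3 := le_self_pow₀ hC (by norm_num)
  have hC2 : C ^ 2 ≤ C ^ 3 := pow_le_pow_right₀ hC (by norm_num)
  obtain ⟨x, hx⟩ : ∃ x : ℝ, x = c / (4 * C ^ 3 * C1) := ⟨_, rfl⟩
  have hx0 : 0 < x := by rw [hx]; positivity
  have hxm : 4 * (C ^ 3 * C1 * x) = c := by rw [hx]; field_simp
  have h1 : C ^ 3 * x ≤ C ^ 3 * C1 * x := by
    calc C ^ 3 * x ≤ C ^ 3 * x * C1 := le_mul_of_one_le_right (by positivity) hC1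
      _ = C ^ 3 * C1 * x := by ring
  have h3 : C * x ≤ C ^ 3 * x := mul_le_mul_of_nonneg_right hCC3 hx0.le
  have h4 : x ≤ C ^ 3 * x := le_mul_of_one_le_left hx0.le hC3
  have h5 : C ^ 2 * x ≤ C ^ 3 * x := mul_le_mul_of_nonneg_right hC2 hx0.le
  refine ⟨x, hx0, by linarith, by linarith, ?_, ?_, ?_⟩
  · calc C1 * (C * x) ≤ C1 * (C ^ 3 * x) := mul_le_mul_of_nonneg_left h3 hC10.le
      _ = C ^ 3 * C1 * x := by ring
      _ ≤ c / 4 := by linarith
  · calc C * (C * x) = C ^ 2 * x := by ring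
      _ ≤ c / 4 := by linarith
  · intro hx1
    calc C * (C * x) ^ 2 = C ^ 3 * x * x := by ring
      _ ≤ C ^ 3 * x := mul_le_of_le_one_right (by positivity) hx1
      _ ≤ c / 4 := by linarith

theorem GZO_proof (hGZD : GZD_stmt) : GZO_stmt := by
  intro C e C1 ρ0 hC he hC1 hρ0
  obtain ⟨eD, C2, h0, h2e, h2ρ, hC2, hD⟩ := hGZD C e C1 ρ0 hC he hC1 hρ0
  have hCp : 0 < C := by linarith
  have hC1p : 0 < C1 := by linarith
  obtain ⟨e2, he2⟩ : ∃ x : ℝ, x = min eD (e / (2 * (C * C))) := ⟨_, rfl⟩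
  have he20 : 0 < e2 := by rw [he2]; exact lt_min h0 (by positivity)
  have he2D : e2 ≤ eD := by rw [he2]; exact min_le_left _ _
  have he2C : C * (C * e2) ≤ e / 2 := by
    have h1 : e2 ≤ e / (2 * (C * C)) := by rw [he2]; exact min_le_right _ _
    rw [le_div_iff₀ (by positivity)] at h1
    linarith
  obtain ⟨c, hc⟩ : ∃ x : ℝ, x = min 1 (min e2 (min e ρ0)) := ⟨_, rfl⟩
  have hc0 : 0 < c := by rw [hc]; exact lt_min one_pos (lt_min he20 (lt_min he hρ0))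
  have hc1 : c ≤ 1 := by rw [hc]; exact min_le_left _ _
  have hce2 : c ≤ e2 := by rw [hc]; exact (min_le_right _ _).trans (min_le_left _ _)
  have hce : c ≤ e := by rw [hc]; exact (min_le_right _ _).trans ((min_le_right _ _).trans (min_le_left _ _))
  have hcρ : c ≤ ρ0 := by rw [hc]; exact (min_le_right _ _).trans ((min_le_right _ _).trans (min_le_right _ _))
  obtain ⟨ε1, hx0, hx1, hx2, hx3, hx4, hx5⟩ := GZO_eps C C1 c hC hC1 hc0
  have hx6 := hx5 (by linarith)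
  refine ⟨e2, ε1, C, he20, by linarith, by linarith, hx0, hC, by linarith, ?_⟩
  intro S _ m μ d f H H' κ F τ hS2 hH' hR z a0 ha0 n ε hε hεε
  have hS := hS2.sct
  obtain ⟨hde, hτ0, hOz, -⟩ := hD μ d f H H' κ F τ hS2 hH' hR z a0 (ha0.trans he2D)
  have hCε : C * ε ≤ C * ε1 := mul_le_mul_of_nonneg_left hεε hCp.le
  have hCε0 : 0 ≤ C * ε := mul_nonneg hCp.le hε
  have ha0e : ‖a0‖ ≤ e := by linarith
  have first : BB d f n (κ z a0) ε ⊆ bxs f κ z (SZ f κ F z a0 n (C * ε)) (C * ε) := by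
    intro y hy
    have hy0 : d (κ z a0) y ≤ ε := by
      have := hy 0 ⟨le_rfl, Nat.cast_nonneg n⟩
      rwa [hS.f0, hS.f0] at this
    have hzy : d z y ≤ C * e2 + ε := by
      refine (hS.dt z (κ z a0) y).trans (add_le_add ((hS.kl z a0 ha0e).trans ?_) hy0)
      exact mul_le_mul_of_nonneg_left ha0 hCp.le
    have hzC : C * d z y ≤ e := by
      calc C * d z y ≤ C * (C * e2 + ε) := mul_le_mul_of_nonneg_left hzy hCp.le
        _ = C * (C * e2) + C * ε := by ring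
        _ ≤ e := by linarith
    have hze : d z y ≤ e := by
      have h1 : d z y ≤ C * d z y := le_mul_of_one_le_left (hS.d0 _ _) hC
      linarith
    obtain ⟨a, s, ha, hs, hyp⟩ := hS.bx z y hze
    have hae : ‖a‖ ≤ e := ha.trans hzC
    have hse : |s| ≤ e := hs.trans hzC
    have hin := hS2.inj2 z a a0 s 0 hae ha0e hse (by rw [abs_zero]; exact he.le)
    rw [sub_zero, hS.f0, ← hyp, hS.ds] at hin
    have hin2 : ‖a - a0‖ + |s| ≤ C * ε := hin.trans (mul_le_mul_of_nonneg_left hy0 hCp.le)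
    have hau : ‖a - a0‖ ≤ C * ε := by linarith [abs_nonneg s]
    have hsu : |s| ≤ C * ε := by linarith [norm_nonneg (a - a0)]
    -- coordinates at the times `i ≥ 1`
    have hex : ∀ i : ℕ, ∃ (b : EE m) (r : ℝ), i ≤ n → ‖b‖ ≤ C * ε ∧ |r| ≤ C * ε ∧ f i y = f r (κ (f i (κ z a0)) b) := by
      intro i
      by_cases hi : i ≤ n
      · have h1 : d (f i (κ z a0)) (f i y) ≤ ε := hy i ⟨Nat.cast_nonneg i, by exact_mod_cast hi⟩
        obtain ⟨b, r, hb, hr, hp⟩ := hS.bx (f i (κ z a0)) (f i y) (by linarith)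
        have h2 : C * d (f i (κ z a0)) (f i y) ≤ C * ε := mul_le_mul_of_nonneg_left h1 hCp.le
        exact ⟨b, r, fun _ => ⟨hb.trans h2, hr.trans h2, hp⟩⟩
      · exact ⟨0, 0, fun h => absurd h hi⟩
    choose b r hbr using hex
    have hf1 : ∀ (i : ℕ) (w : S), f 1 (f i w) = f ((i : ℝ) + 1) w := by
      intro i w
      rw [← hS.fa, add_comm]
    -- the first step
    have hstep0 : 1 ≤ n → orz f κ F z a0 0 (a - a0) = b 1 := by
      intro hn
      obtain ⟨hb2, hr2, hp2⟩ := hbr 1 hn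
      rw [Nat.cast_one] at hp2
      obtain ⟨hk, -⟩ := hS.poF z (f 1 (κ z a0)) hde a hae
      have hτ : |τ z (f 1 (κ z a0)) a - 1| ≤ C * (C * ε) := by
        have h7 := (hS2.tl z _ hde a a0 hae ha0e).trans (mul_le_mul_of_nonneg_left hau hCp.le)
        rw [hτ0] at h7
        exact h7
      have hO : orz f κ F z a0 0 (a - a0) = F z (f 1 (κ z a0)) a := by
        show F z (f 1 (κ z a0)) (a0 + (a - a0)) = _
        rw [add_sub_cancel]
      have hlip := hH'.lip (orz f κ F z a0 0) (hOz 0).1 (a - a0) 0 (by linarith) (by rw [norm_zero]; exact hρ0.le)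
      rw [(hOz 0).2, sub_zero, sub_zero] at hlip
      have hFe : ‖F z (f 1 (κ z a0)) a‖ ≤ e := by
        rw [← hO]
        refine hlip.trans ?_
        have h1 : C1 * ‖a - a0‖ ≤ C1 * (C * ε1) := mul_le_mul_of_nonneg_left (hau.trans hCε) hC1p.le
        linarith
      have hsum : κ (f 1 (κ z a0)) (F z (f 1 (κ z a0)) a) = f (τ z (f 1 (κ z a0)) a + (-s) + (-1) + r 1) (κ (f 1 (κ z a0)) (b 1)) := by
        have e1 : κ z a = f (-s) y := by
          rw [hyp, ← hS.fa, neg_add_cancel, hS.f0]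
        have e2 : y = f (-1) (f 1 y) := by
          rw [← hS.fa, neg_add_cancel, hS.f0]
        rw [hS.fa (τ z (f 1 (κ z a0)) a + (-s) + (-1)) (r 1), hS.fa (τ z (f 1 (κ z a0)) a + (-s)) (-1),
          hS.fa (τ z (f 1 (κ z a0)) a) (-s), ← hp2, ← e2, ← e1]
        exact hk
      have hsle : |τ z (f 1 (κ z a0)) a + (-s) + (-1) + r 1| ≤ e := by
        have h3 : τ z (f 1 (κ z a0)) a + (-s) + (-1) + r 1 = (τ z (f 1 (κ z a0)) a - 1) - s + r 1 := by ring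
        rw [h3]
        have h4 := abs_add_le (τ z (f 1 (κ z a0)) a - 1 - s) (r 1)
        have h5 := abs_sub (τ z (f 1 (κ z a0)) a - 1) s
        have h6 : C * (C * ε) ≤ C * (C * ε1) := mul_le_mul_of_nonneg_left hCε hCp.le
        linarith
      rw [hO]
      exact (hS.inj (f 1 (κ z a0)) (b 1) (F z (f 1 (κ z a0)) a) _ (by linarith) hFe hsle hsum).1
    -- the other steps
    have hstep : ∀ i : ℕ, i + 1 < n → orz f κ F z a0 (i + 1) (b (i + 1)) = b (i + 1 + 1) := by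
      intro i hi
      obtain ⟨hb1, hr1, hp1⟩ := hbr (i + 1) hi.le
      obtain ⟨hb2, hr2, hp2⟩ := hbr (i + 1 + 1) hi
      have hcast : (((i + 1 + 1 : ℕ) : ℕ) : ℝ) = ((i + 1 : ℕ) : ℝ) + 1 := by push_cast; ring
      rw [hcast] at hp2
      have hd0 : d (f 1 (f ((i + 1 : ℕ) : ℝ) (κ z a0))) (f (((i + 1 : ℕ) : ℝ) + 1) (κ z a0)) = 0 := by rw [hf1, hS.dz]
      have hde' : d (f 1 (f ((i + 1 : ℕ) : ℝ) (κ z a0))) (f (((i + 1 : ℕ) : ℝ) + 1) (κ z a0)) ≤ e := by rw [hd0]; exact he.le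
      have hbe : ‖b (i + 1)‖ ≤ e := by linarith
      obtain ⟨hk, ht⟩ := hS.poF _ _ hde' (b (i + 1)) hbe
      rw [hd0, add_zero] at ht
      have hO : orz f κ F z a0 (i + 1) (b (i + 1)) = F (f ((i + 1 : ℕ) : ℝ) (κ z a0)) (f (((i + 1 : ℕ) : ℝ) + 1) (κ z a0)) (b (i + 1)) := rfl
      have hlip := hH'.lip (orz f κ F z a0 (i + 1)) (hOz (i + 1)).1 (b (i + 1)) 0 (by linarith) (by rw [norm_zero]; exact hρ0.le)
      rw [(hOz (i + 1)).2, sub_zero, sub_zero] at hlip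
      have hFe : ‖orz f κ F z a0 (i + 1) (b (i + 1))‖ ≤ e := by
        refine hlip.trans ?_
        have h1 : C1 * ‖b (i + 1)‖ ≤ C1 * (C * ε1) := mul_le_mul_of_nonneg_left (hb1.trans hCε) hC1p.le
        linarith
      rw [← hO] at hk
      have hsum : κ (f (((i + 1 : ℕ) : ℝ) + 1) (κ z a0)) (orz f κ F z a0 (i + 1) (b (i + 1))) =
          f (τ (f ((i + 1 : ℕ) : ℝ) (κ z a0)) (f (((i + 1 : ℕ) : ℝ) + 1) (κ z a0)) (b (i + 1)) + (-(r (i + 1))) + (-1) + r (i + 1 + 1)) (κ (f (((i + 1 : ℕ) : ℝ) + 1) (κ z a0)) (b (i + 1 + 1))) := by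
        have e1 : κ (f ((i + 1 : ℕ) : ℝ) (κ z a0)) (b (i + 1)) = f (-(r (i + 1))) (f ((i + 1 : ℕ) : ℝ) y) := by
          rw [hp1, ← hS.fa, neg_add_cancel, hS.f0]
        have e2 : f ((i + 1 : ℕ) : ℝ) y = f (-1) (f (((i + 1 : ℕ) : ℝ) + 1) y) := by
          rw [← hS.fa]
          congr 1
          ring
        rw [hS.fa (τ (f ((i + 1 : ℕ) : ℝ) (κ z a0)) (f (((i + 1 : ℕ) : ℝ) + 1) (κ z a0)) (b (i + 1)) + (-(r (i + 1))) + (-1)) (r (i + 1 + 1)),
          hS.fa (τ (f ((i + 1 : ℕ) : ℝ) (κ z a0)) (f (((i + 1 : ℕ) : ℝ) + 1) (κ z a0)) (b (i + 1)) + (-(r (i + 1)))) (-1),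
          hS.fa (τ (f ((i + 1 : ℕ) : ℝ) (κ z a0)) (f (((i + 1 : ℕ) : ℝ) + 1) (κ z a0)) (b (i + 1))) (-(r (i + 1))), ← hp2, ← e2, ← e1]
        exact hk
      have hsle : |τ (f ((i + 1 : ℕ) : ℝ) (κ z a0)) (f (((i + 1 : ℕ) : ℝ) + 1) (κ z a0)) (b (i + 1)) + (-(r (i + 1))) + (-1) + r (i + 1 + 1)| ≤ e := by
        have h1 : ‖b (i + 1)‖ ^ 2 ≤ (C * ε1) ^ 2 := pow_le_pow_left₀ (norm_nonneg _) (hb1.trans hCε) 2
        have h2 : C * ‖b (i + 1)‖ ^ 2 ≤ C * (C * ε1) ^ 2 := mul_le_mul_of_nonneg_left h1 hCp.le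
        generalize τ (f ((i + 1 : ℕ) : ℝ) (κ z a0)) (f (((i + 1 : ℕ) : ℝ) + 1) (κ z a0)) (b (i + 1)) = q at ht ⊢
        have h3 : q + (-(r (i + 1))) + (-1) + r (i + 1 + 1) = (q - 1) - r (i + 1) + r (i + 1 + 1) := by ring
        rw [h3]
        have h4 := abs_add_le (q - 1 - r (i + 1)) (r (i + 1 + 1))
        have h5 := abs_sub (q - 1) (r (i + 1))
        linarith
      exact (hS.inj _ (b (i + 1 + 1)) (orz f κ F z a0 (i + 1) (b (i + 1))) _ (by linarith) hFe hsle hsum).1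
    have hitr : ∀ i : ℕ, i + 1 ≤ n → itr (orz f κ F z a0) (i + 1) (a - a0) = b (i + 1) := by
      intro i
      induction i with
      | zero =>
        intro hn
        exact hstep0 hn
      | succ i ih =>
        intro hi
        show orz f κ F z a0 (i + 1) (itr (orz f κ F z a0) (i + 1) (a - a0)) = b (i + 1 + 1)
        rw [ih (by omega)]
        exact hstep i (by omega)
    refine ⟨a, ?_, s, hsu, hyp⟩
    show a - a0 ∈ SB (orz f κ F z a0) n (C * ε)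
    intro i hi
    cases i with
    | zero => exact hau
    | succ i =>
      rw [hitr i hi]
      exact (hbr (i + 1) hi).1
  refine ⟨first, ?_⟩
  intro a' ha' hy
  obtain ⟨a, ha, s, hs, hp⟩ := first hy
  have hau : ‖a - a0‖ ≤ C * ε := ha 0 (Nat.zero_le _)
  have hae : ‖a‖ ≤ e := by
    calc ‖a‖ = ‖a0 + (a - a0)‖ := by rw [add_sub_cancel]
      _ ≤ ‖a0‖ + ‖a - a0‖ := norm_add_le _ _
      _ ≤ e := by linarith
  have h1 := (hS.inj z a a' s hae ha' (by linarith) hp).1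
  rw [h1]
  exact ha

end

end Pool.Agent.VDG
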