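import Pool.Agent.helper82.VD.SpecJ
import Pool.Agent.helper78.VDG.HBB

/-!
# MP_07c750, project VD, row HBC (the class HYP satisfies HB2 and RCN)
-/

set_option autoImplicit false

open Pool.Agent.VD Pool.Agent.VDE MeasureTheory Filter Set Topology
open scoped ENNReal

namespace Pool.Agent.VDG

theorem HBC_z0 {m : ℕ} (F : ℕ → EE m → EE m) (ρ : ℝ) : SB F 0 ρ = Metric.closedBall 0 ρ := by
  ext a
  rw [mem_closedBall_zero_iff]
  constructor
  · intro h
    exact h 0 le_rfl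
  · intro h i hi
    obtain rfl : i = 0 := by omega
    exact h

theorem HBC_v0 {m : ℕ} (F : ℕ → EE m → EE m) (ρ : ℝ) : {w : EuclideanSpace ℝ (Fin m) | ((0, w) : EE m) ∈ SB F 0 ρ} = {w : EuclideanSpace ℝ (Fin m) | ‖w‖ ≤ ρ} := by
  ext w
  have e : ‖((0, w) : EE m)‖ = ‖w‖ := by
    rw [Prod.norm_def]
    simp
  constructor
  · intro h
    have h1 : ‖((0, w) : EE m)‖ ≤ ρ := h 0 le_rfl
    rw [e] at h1
    exact h1
  · intro h i hi
    obtain rfl : i = 0 := by omega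
    show ‖((0, w) : EE m)‖ ≤ ρ
    rw [e]
    exact h

/-- replace the maps beyond `N` -/
theorem HBC_ext {m : ℕ} (P : (EE m → EE m) → Prop) (N : ℕ) (hN : 0 < N) (F : ℕ → EE m → EE m) (hF : ∀ i < N, P (F i)) :
    ∃ F' : ℕ → EE m → EE m, (∀ i < N, F i = F' i) ∧ ∀ i, P (F' i) := by
  obtain ⟨F', hF'⟩ : ∃ F' : ℕ → Z m → Z m, F' = fun i => if i < N then F i else F 0 := ⟨_, rfl⟩
  have e1 : ∀ i < N, F i = F' i := by
    intro i hi
    rw [hF']
    simp only [hi, if_true]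
  refine ⟨F', e1, ?_⟩
  intro i
  rcases Nat.lt_or_ge i N with hi | hi
  · rw [← e1 i hi]
    exact hF i hi
  · have e3 : F' i = F 0 := by
      rw [hF']
      simp only [not_lt.2 hi, if_false]
    rw [e3]
    exact hF 0 hN

theorem HBC_vol {m : ℕ} (ρ ρ' : ℝ) (hρ : 0 < ρ) (hρ' : 0 < ρ') : ∃ A : ℝ, 1 ≤ A ∧
    volume (Metric.closedBall (0 : EE m) ρ) ≤ ENNReal.ofReal A * (volume (Metric.closedBall (0 : EE m) ρ') * volume (Metric.closedBall (0 : EE m) ρ')) ∧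
    volume {w : EuclideanSpace ℝ (Fin m) | ‖w‖ ≤ ρ} ≤ ENNReal.ofReal A * volume (Metric.closedBall (0 : EE m) ρ') ∧
    volume (Metric.closedBall (0 : EE m) ρ) ≤ ENNReal.ofReal A * volume {w : EuclideanSpace ℝ (Fin m) | ‖w‖ ≤ ρ'} := by
  have eW : ∀ r : ℝ, {w : EuclideanSpace ℝ (Fin m) | ‖w‖ ≤ r} = Metric.closedBall 0 r := by
    intro r
    ext w
    rw [mem_closedBall_zero_iff]
    rfl
  rw [eW ρ, eW ρ']
  have aux : ∀ x y : ENNReal, x < ⊤ → 0 < y → y < ⊤ → ∃ A : ℝ, 0 ≤ A ∧ x ≤ ENNReal.ofReal A * y := by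
    intro x y hx hy hy'
    refine ⟨x.toReal / y.toReal, by positivity, ?_⟩
    have h1 : 0 < y.toReal := ENNReal.toReal_pos hy.ne' hy'.ne
    have h2 : y = ENNReal.ofReal y.toReal := (ENNReal.ofReal_toReal hy'.ne).symm
    have h3 : x = ENNReal.ofReal x.toReal := (ENNReal.ofReal_toReal hx.ne).symm
    have h4 : ENNReal.ofReal (x.toReal / y.toReal) * y = ENNReal.ofReal (x.toReal / y.toReal) * ENNReal.ofReal y.toReal := by rw [← h2]
    rw [h4, ← ENNReal.ofReal_mul (by positivity), div_mul_cancel₀ _ h1.ne', ← h3]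
  have p1 : 0 < volume (Metric.closedBall (0 : EE m) ρ') := Metric.measure_closedBall_pos volume 0 hρ'
  have f1 : volume (Metric.closedBall (0 : EE m) ρ') < ⊤ := measure_closedBall_lt_top
  have f2 : volume (Metric.closedBall (0 : EE m) ρ) < ⊤ := measure_closedBall_lt_top
  have p3 : 0 < volume (Metric.closedBall (0 : EuclideanSpace ℝ (Fin m)) ρ') := Metric.measure_closedBall_pos volume 0 hρ'
  have f3 : volume (Metric.closedBall (0 : EuclideanSpace ℝ (Fin m)) ρ') < ⊤ := measure_closedBall_lt_top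
  have f4 : volume (Metric.closedBall (0 : EuclideanSpace ℝ (Fin m)) ρ) < ⊤ := measure_closedBall_lt_top
  obtain ⟨A1, h1, h1'⟩ := aux _ _ f2 (ENNReal.mul_pos p1.ne' p1.ne') (ENNReal.mul_lt_top f1 f1)
  obtain ⟨A2, h2, h2'⟩ := aux _ _ f4 p1 f1
  obtain ⟨A3, h3, h3'⟩ := aux _ _ f2 p3 f3
  refine ⟨A1 + A2 + A3 + 1, by linarith, h1'.trans ?_, h2'.trans ?_, h3'.trans ?_⟩
  · gcongr
    linarith
  · gcongr
    linarith
  · gcongr
    linarith

theorem HBC_proof (hHBB : HBB_stmt) (hNRC : NRC_stmt) (hNBD : NBD_stmt) (hNGU : NGU_stmt) (hNDV : NDV_stmt) : HBC_stmt := by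
  intro m c C e0 hc hC he0
  have he0' : 0 < e0 / 2 := by linarith
  obtain ⟨Ca, ra, hra, hA⟩ := hHBB m c C (e0 / 2) hc hC he0'
  obtain ⟨rb, μ, K, hrb, hrb', hμ, hK, hB⟩ := hNBD m c C (e0 / 2) hc hC he0'
  obtain ⟨rc, hrc, hrc', hG⟩ := hNGU m c C (e0 / 2) hc hC he0'
  obtain ⟨rd, hrd, hrd', hD⟩ := hNDV m c C (e0 / 2) hc hC he0'
  obtain ⟨ρ0, hρ0, hρa, hρb, hρc, hρd⟩ : ∃ ρ0 : ℝ, 0 < ρ0 ∧ ρ0 ≤ ra ∧ ρ0 ≤ rb ∧ ρ0 ≤ rc ∧ ρ0 ≤ rd :=
    ⟨min (min ra rb) (min rc rd), lt_min (lt_min hA.hρ hrb) (lt_min hrc hrd), (min_le_left _ _).trans (min_le_left _ _),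
      (min_le_left _ _).trans (min_le_right _ _), (min_le_right _ _).trans (min_le_left _ _),
      (min_le_right _ _).trans (min_le_right _ _)⟩
  obtain ⟨C1, hC1a, hC1K⟩ : ∃ C1 : ℝ, Ca ≤ C1 ∧ K ≤ C1 := ⟨max Ca K, le_max_left _ _, le_max_right _ _⟩
  have hCa0 : 0 < Ca := lt_of_lt_of_le one_pos hA.hC
  have hC10 : 0 < C1 := lt_of_lt_of_le hCa0 hC1a
  have hr4 : ρ0 ≤ e0 / 4 := by linarith
  refine ⟨C1, μ, ρ0, hr4, ?_, ?_⟩
  · refine ⟨?_, hμ, ?_, ?_, ?_⟩
    · refine ⟨hA.hC.trans hC1a, hρ0, ?_, ?_, ?_, ?_⟩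
      · intro F hF a b ha hb
        exact (hA.lip F hF a b (ha.trans hρa) (hb.trans hρa)).trans (mul_le_mul_of_nonneg_right hC1a (norm_nonneg _))
      · intro F hF h0 a ha
        have h1 : C1⁻¹ ≤ Ca⁻¹ := by
          rw [inv_le_inv₀ hC10 hCa0]
          exact hC1a
        have h2 : C1⁻¹ * ‖a‖ ^ 2 ≤ Ca⁻¹ * ‖a‖ ^ 2 := mul_le_mul_of_nonneg_right h1 (by positivity)
        have h3 := hA.qs F hF h0 a (ha.trans hρa)
        linarith
      · intro n F δ hδ hδρ hF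
        obtain ⟨a, ha, hb⟩ := hA.sha n F δ hδ (hδρ.trans hρa) hF
        exact ⟨a, ha, fun i hi => (hb i hi).trans (mul_le_mul_of_nonneg_right hC1a hδ)⟩
      · intro ρ' ρ hρ' hρρ hρ
        exact hA.gva ρ' ρ hρ' hρρ (hρ.trans hρa)
    · intro ρ' ρ hρ' hρ0' hρ hρ0''
      obtain ⟨C', hC', hg⟩ := hG ρ ρ' hρ (hρ0''.trans hρc) hρ' (hρ0'.trans hρc)
      obtain ⟨A, hA1, hA2, -, -⟩ := HBC_vol (m := m) ρ ρ' hρ hρ'
      refine ⟨max C' A, lt_of_lt_of_le (lt_of_lt_of_le one_pos hC') (le_max_left _ _), ?_⟩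
      intro n k F hF
      rcases Nat.eq_zero_or_pos (n + k) with hn | hn
      · obtain ⟨rfl, rfl⟩ : n = 0 ∧ k = 0 := by omega
        rw [show 0 + 0 = 0 from rfl, HBC_z0, HBC_z0, HBC_z0]
        refine hA2.trans ?_
        gcongr
        exact le_max_right _ _
      · obtain ⟨F', e1, e2⟩ := HBC_ext (fun G => HYP c C (e0 / 2) G ∧ G 0 = 0) (n + k) hn F hF
        have h := hg F' n k (fun i => (e2 i).1) (fun i => (e2 i).2)
        rw [HBB_SB (F := F) (F' := F') (N := n) (fun i hi => e1 i (by omega)) ρ',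
          HBB_SB (F := fun i => F (n + i)) (F' := fun i => F' (n + i)) (N := k) (fun i hi => e1 (n + i) (by omega)) ρ',
          HBB_SB (F := F) (F' := F') (N := n + k) (fun i hi => e1 i hi) ρ]
        refine h.trans ?_
        gcongr
        exact le_max_left _ _
    · intro ρ' ρ hρ' hρ0' hρ hρ0''
      obtain ⟨Cx, hCx, hx⟩ := hD ρ ρ' hρ (hρ0''.trans hρd) hρ' (hρ0'.trans hρd)
      obtain ⟨Cy, hCy, hy⟩ := hD ρ' ρ hρ' (hρ0'.trans hρd) hρ (hρ0''.trans hρd)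
      obtain ⟨A, hA1, -, hA3, hA4⟩ := HBC_vol (m := m) ρ ρ' hρ hρ'
      obtain ⟨Cz, hz1, hz2, hz3⟩ : ∃ Cz : ℝ, Cx ≤ Cz ∧ Cy ≤ Cz ∧ A ≤ Cz :=
        ⟨max (max Cx Cy) A, (le_max_left _ _).trans (le_max_left _ _), (le_max_right _ _).trans (le_max_left _ _), le_max_right _ _⟩
      refine ⟨Cz, by linarith, ?_⟩
      intro n F hF
      rcases Nat.eq_zero_or_pos n with hn | hn
      · subst hn
        rw [HBC_v0, HBC_v0, HBC_z0, HBC_z0]
        constructor
        · refine hA3.trans ?_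
          gcongr
        · refine hA4.trans ?_
          gcongr
      · obtain ⟨F', e1, e2⟩ := HBC_ext (fun G => HYP c C (e0 / 2) G ∧ G 0 = 0) n hn F hF
        have e3 : ∀ r : ℝ, {w : EuclideanSpace ℝ (Fin m) | ((0, w) : EE m) ∈ SB F n r} = {w : W m | ∀ i ≤ n, ‖it F' i (0, w)‖ ≤ r} := by
          intro r
          rw [HBB_SB (F := F) (F' := F') (N := n) (fun i hi => e1 i hi) r]
          rfl
        rw [e3 ρ, e3 ρ', HBB_SB (F := F) (F' := F') (N := n) (fun i hi => e1 i hi) ρ', HBB_SB (F := F) (F' := F') (N := n) (fun i hi => e1 i hi) ρ]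
        constructor
        · have h := (hx F' n 0 (fun i => (e2 i).1) (fun i => (e2 i).2)).1 (by rw [norm_zero]; exact hρ.le)
          refine h.trans ?_
          gcongr
        · have h := (hy F' n 0 (fun i => (e2 i).1) (fun i => (e2 i).2)).2 (by rw [norm_zero, mul_zero]; exact hρ'.le)
          refine h.trans ?_
          gcongr
    · intro n F a b hn hF ha hb ha' hb' k hk
      obtain ⟨F', e1, e2⟩ := HBC_ext (fun G => HYP c C (e0 / 2) G) n (by omega) F hF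
      have h := hB F' n 0 a b e2 hn le_rfl ?_ ?_ k hk
      · rw [zero_add] at h
        refine h.trans ?_
        have : 0 ≤ Real.exp (-(μ * k)) * ‖(a 0 - b 0).1‖ + Real.exp (-(μ * (n - k))) * ‖(a n - b n).1‖ := by positivity
        exact mul_le_mul_of_nonneg_right hC1K this
      · refine ⟨fun i hi => ?_, fun i hi => (ha' i hi).trans hρb⟩
        rw [ha i hi, e1 i hi, sub_self, norm_zero]
      · refine ⟨fun i hi => ?_, fun i hi => (hb' i hi).trans hρb⟩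
        rw [hb i hi, e1 i hi, sub_self, norm_zero]
  · refine ⟨?_, ?_⟩
    · intro F hF
      have h := hNRC m c C e0 F 0 0 hF (by rw [norm_zero]; exact he0'.le)
      have e : (fun x => F (0 + x) - 0) = F := by
        funext x
        rw [zero_add, sub_zero]
      rw [e] at h
      exact h
    · intro F p hF hp
      exact hNRC m c C e0 F p (F p) hF (by linarith)

end Pool.Agent.VDG
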